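import Pool.Agent.helper48.FL.M75

/-!
# Composite values of `⌊ξ (7/5)^n⌋` and `⌈ξ (7/5)^n⌉`
-/

set_option autoImplicit false

namespace Pool.Agent.Results.MP_597c7c_nt.SevenFifths

open Pool.Agent.helper48.FL75

/-- A window whose integer parts are all prime to `4290`, or all prime to `6006`, consists of steps. -/
theorem step_of_coprime {z : ℝ} {M n : ℕ} (hM : M = 4290 ∨ M = 6006)
    (h1 : (⌊z * (7 / 5) ^ n⌋.natAbs).Coprime M)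
    (h2 : (⌊z * (7 / 5) ^ (n + 1)⌋.natAbs).Coprime M) : Step z n := by
  have e1 : ss z n = ⌊z * (7 / 5) ^ n⌋ := rfl
  have e2 : ss z (n + 1) = ⌊z * (7 / 5) ^ (n + 1)⌋ := rfl
  rw [← e1] at h1
  rw [← e2] at h2
  have key : ∀ (s : ℤ) (p : ℕ), s.natAbs.Coprime M → p ∣ M → p ≠ 1 → s % (p : ℤ) ≠ 0 := by
    intro s p hs hp hp1 h0
    have h3 : p ∣ s.natAbs := Int.natCast_dvd.mp (Int.dvd_of_emod_eq_zero h0)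
    have h4 := Nat.dvd_gcd h3 hp
    rw [hs] at h4
    exact hp1 (Nat.dvd_one.mp h4)
  have d2 : 2 ∣ M := by rcases hM with rfl | rfl <;> decide
  have d3 : 3 ∣ M := by rcases hM with rfl | rfl <;> decide
  have d11 : 11 ∣ M := by rcases hM with rfl | rfl <;> decide
  have d13 : 13 ∣ M := by rcases hM with rfl | rfl <;> decide
  refine ⟨⟨key _ 2 h1 d2 (by norm_num), key _ 3 h1 d3 (by norm_num), key _ 11 h1 d11 (by norm_num),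
    key _ 13 h1 d13 (by norm_num)⟩, ⟨key _ 2 h2 d2 (by norm_num), key _ 3 h2 d3 (by norm_num),
    key _ 11 h2 d11 (by norm_num), key _ 13 h2 d13 (by norm_num)⟩, ?_⟩
  intro h0
  rcases hM with hM | hM
  · have := key _ 5 h1 (by rw [hM]; decide) (by norm_num)
    push_cast at this
    omega
  · have := key _ 7 h2 (by rw [hM]; decide) (by norm_num)
    push_cast at this
    omega

/-- For every real `z ≠ 0` and every large `N` some `n` between `N` and `2N` has `⌊z (7/5)^n⌋` not prime to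
`M`, with `M = 4290` or `M = 6006`. -/
theorem window (z : ℝ) (hz : z ≠ 0) : ∃ N₀ : ℕ, ∀ N : ℕ, N₀ ≤ N → ∀ M : ℕ,
    (M = 4290 ∨ M = 6006) → ∃ n : ℕ, N ≤ n ∧ n ≤ 2 * N ∧
      ¬ (⌊z * (7 / 5) ^ n⌋.natAbs).Coprime M := by
  obtain ⟨N₀, hN₀⟩ := exists_not_step hz
  refine ⟨N₀, fun N hN M hM => ?_⟩
  obtain ⟨n, h1, h2, h3⟩ := hN₀ N hN
  by_contra hcon
  push Not at hcon
  exact h3 (step_of_coprime hM (hcon n h1 (by omega)) (hcon (n + 1) (by omega) (by omega)))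

theorem large (ξ : ℝ) (hξ : 0 < ξ) : ∃ N₁ : ℕ, ∀ n, N₁ ≤ n → 6007 ≤ ξ * (7 / 5) ^ n := by
  obtain ⟨N₁, h⟩ := pow_unbounded_of_one_lt (6007 / ξ) (by norm_num : (1 : ℝ) < 7 / 5)
  refine ⟨N₁, fun k hk => ?_⟩
  have h1 : (7 / 5 : ℝ) ^ N₁ ≤ (7 / 5) ^ k := pow_le_pow_right₀ (by norm_num) hk
  rw [div_lt_iff₀ hξ] at h
  nlinarith

theorem comp_of_large {m M : ℕ} (hm : 6007 ≤ m) (hM : M = 4290 ∨ M = 6006)
    (h : ¬ m.Coprime M) : 1 < m ∧ ¬ m.Prime := by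
  refine ⟨by omega, fun hp => ?_⟩
  apply h
  rw [Nat.Prime.coprime_iff_not_dvd hp]
  intro hdvd
  have := Nat.le_of_dvd (by rcases hM with rfl | rfl <;> norm_num) hdvd
  rcases hM with rfl | rfl <;> omega

/-- For every `ξ > 0` infinitely many of the numbers `⌊ξ (7/5)^n⌋` are composite; more precisely, for all
large `N` there is an `n` with `N ≤ n ≤ 2N` for which `⌊ξ (7/5)^n⌋` is composite and has a common factor with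
`4290 = 2 · 3 · 5 · 11 · 13`, and one for which it has a common factor with `6006 = 2 · 3 · 7 · 11 · 13`. The
same holds for `⌈ξ (7/5)^n⌉`. -/
theorem result :
    (∀ ξ : ℝ, 0 < ξ →
      {n : ℕ | 1 < ⌊ξ * ((7 : ℝ) / 5) ^ n⌋₊ ∧ ¬ (⌊ξ * ((7 : ℝ) / 5) ^ n⌋₊).Prime}.Infinite) ∧
    (∀ ξ : ℝ, 0 < ξ → ∃ N₀ : ℕ, ∀ N : ℕ, N₀ ≤ N → ∀ M : ℕ, (M = 4290 ∨ M = 6006) →
      (∃ n : ℕ, N ≤ n ∧ n ≤ 2 * N ∧ 1 < ⌊ξ * ((7 : ℝ) / 5) ^ n⌋₊ ∧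
        ¬ (⌊ξ * ((7 : ℝ) / 5) ^ n⌋₊).Prime ∧ ¬ (⌊ξ * ((7 : ℝ) / 5) ^ n⌋₊).Coprime M) ∧
      (∃ n : ℕ, N ≤ n ∧ n ≤ 2 * N ∧ 1 < ⌈ξ * ((7 : ℝ) / 5) ^ n⌉₊ ∧
        ¬ (⌈ξ * ((7 : ℝ) / 5) ^ n⌉₊).Prime ∧ ¬ (⌈ξ * ((7 : ℝ) / 5) ^ n⌉₊).Coprime M)) := by
  have main : ∀ ξ : ℝ, 0 < ξ → ∃ N₀ : ℕ, ∀ N : ℕ, N₀ ≤ N → ∀ M : ℕ, (M = 4290 ∨ M = 6006) →
      (∃ n : ℕ, N ≤ n ∧ n ≤ 2 * N ∧ 1 < ⌊ξ * ((7 : ℝ) / 5) ^ n⌋₊ ∧
        ¬ (⌊ξ * ((7 : ℝ) / 5) ^ n⌋₊).Prime ∧ ¬ (⌊ξ * ((7 : ℝ) / 5) ^ n⌋₊).Coprime M) ∧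
      (∃ n : ℕ, N ≤ n ∧ n ≤ 2 * N ∧ 1 < ⌈ξ * ((7 : ℝ) / 5) ^ n⌉₊ ∧
        ¬ (⌈ξ * ((7 : ℝ) / 5) ^ n⌉₊).Prime ∧ ¬ (⌈ξ * ((7 : ℝ) / 5) ^ n⌉₊).Coprime M) := by
    intro ξ hξ
    obtain ⟨N₁, hN₁⟩ := window ξ hξ.ne'
    obtain ⟨N₂, hN₂⟩ := window (-ξ) (neg_ne_zero.mpr hξ.ne')
    obtain ⟨N₃, hN₃⟩ := large ξ hξ
    refine ⟨max N₁ (max N₂ N₃), fun N hN M hM => ⟨?_, ?_⟩⟩
    · obtain ⟨n, h1, h2, h3⟩ := hN₁ N (le_trans (le_max_left _ _) hN) M hM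
      have h4 := hN₃ n (le_trans (le_trans (le_trans (le_max_right _ _) (le_max_right _ _)) hN) h1)
      have h5 : ⌊ξ * ((7 : ℝ) / 5) ^ n⌋.natAbs = ⌊ξ * ((7 : ℝ) / 5) ^ n⌋₊ := by
        have h6 : ((⌊ξ * ((7 : ℝ) / 5) ^ n⌋₊ : ℕ) : ℤ) = ⌊ξ * ((7 : ℝ) / 5) ^ n⌋ :=
          Int.natCast_floor_eq_floor (by linarith)
        rw [← h6, Int.natAbs_natCast]
      rw [h5] at h3
      have h7 : 6007 ≤ ⌊ξ * ((7 : ℝ) / 5) ^ n⌋₊ := Nat.le_floor (by push_cast; exact h4)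
      obtain ⟨h8, h9⟩ := comp_of_large h7 hM h3
      exact ⟨n, h1, h2, h8, h9, h3⟩
    · obtain ⟨n, h1, h2, h3⟩ := hN₂ N
        (le_trans (le_trans (le_max_left _ _) (le_max_right _ _)) hN) M hM
      have h4 := hN₃ n (le_trans (le_trans (le_trans (le_max_right _ _) (le_max_right _ _)) hN) h1)
      have h5 : ⌊-ξ * ((7 : ℝ) / 5) ^ n⌋.natAbs = ⌈ξ * ((7 : ℝ) / 5) ^ n⌉₊ := by
        have h6 : ((⌈ξ * ((7 : ℝ) / 5) ^ n⌉₊ : ℕ) : ℤ) = ⌈ξ * ((7 : ℝ) / 5) ^ n⌉ :=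
          Int.natCast_ceil_eq_ceil (by linarith)
        rw [neg_mul, Int.floor_neg, Int.natAbs_neg, ← h6, Int.natAbs_natCast]
      rw [h5] at h3
      have h7 : 6007 ≤ ⌈ξ * ((7 : ℝ) / 5) ^ n⌉₊ := by
        have h8 := Nat.le_ceil (ξ * ((7 : ℝ) / 5) ^ n)
        have h9 : ((6007 : ℕ) : ℝ) ≤ ((⌈ξ * ((7 : ℝ) / 5) ^ n⌉₊ : ℕ) : ℝ) := by
          push_cast; linarith
        exact_mod_cast h9
      obtain ⟨h8, h9⟩ := comp_of_large h7 hM h3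
      exact ⟨n, h1, h2, h8, h9, h3⟩
  refine ⟨fun ξ hξ => ?_, main⟩
  obtain ⟨N₀, hN₀⟩ := main ξ hξ
  apply Set.infinite_of_not_bddAbove
  rintro ⟨b, hb⟩
  obtain ⟨⟨n, h1, _, h3, h4, _⟩, _⟩ := hN₀ (max N₀ (b + 1)) (le_max_left _ _) 4290 (Or.inl rfl)
  have h5 : n ≤ b := hb ⟨h3, h4⟩
  have h6 : b + 1 ≤ n := le_trans (le_max_right _ _) h1
  omega

end Pool.Agent.Results.MP_597c7c_nt.SevenFifths
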