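import Pool.Agent.helper75.FP.T1

/-!
# Composite values of the integer parts of small multiples of `ξ (a/b)^n`
-/

set_option autoImplicit false

namespace Pool.Agent.Results.MP_597c7c_nt.SmallMultiple

/-- If `a ≤ K (K+1)#` then one of the multipliers `k = 1, ..., K` gives infinitely many composite terms. -/
theorem result :
    ∀ a b : ℕ, 1 < b → b < a → ∀ K : ℕ, 1 ≤ K → a ≤ K * primorial (K + 1) →
      ∀ ξ : ℝ, 0 < ξ → ∃ k : ℕ, 1 ≤ k ∧ k ≤ K ∧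
        {n : ℕ | 1 < ⌊(k : ℝ) * (ξ * ((a : ℝ) / (b : ℝ)) ^ n)⌋₊ ∧
          ¬ (⌊(k : ℝ) * (ξ * ((a : ℝ) / (b : ℝ)) ^ n)⌋₊).Prime}.Infinite := by
  intro a b hb hab K hK haK ξ hξ
  exact Pool.Agent.helper75.FP.theorem1 a b hb hab ξ hξ K hK haK

end Pool.Agent.Results.MP_597c7c_nt.SmallMultiple
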