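import Pool.Agent.helper75.FP.T3

/-!
# The multipliers `k` for which `⌊k ξ (a/b)^n⌋` is composite for only finitely many `n` are sparse
-/

set_option autoImplicit false

namespace Pool.Agent.Results.MP_597c7c_nt.SparseMultipliers

theorem fin_aux (a b : ℕ) (hb : 1 < b) (hab : b < a) (P : ℕ) (hP : 0 < P) (ξ : ℝ) (hξ : 0 < ξ)
    (k : ℕ) (hk : 1 ≤ k)
    (h : {n : ℕ | 1 < ⌊(k : ℝ) * (ξ * ((a : ℝ) / (b : ℝ)) ^ n)⌋₊ ∧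
          ¬ (⌊(k : ℝ) * (ξ * ((a : ℝ) / (b : ℝ)) ^ n)⌋₊).Prime ∧
          ¬ (⌊(k : ℝ) * (ξ * ((a : ℝ) / (b : ℝ)) ^ n)⌋₊).Coprime P}.Finite) :
    {n : ℕ | ¬ (⌊(k : ℝ) * Pool.Agent.helper75.FP.yy a b ξ n⌋₊).Coprime P}.Finite := by
  obtain ⟨M, hM⟩ := h.bddAbove
  obtain ⟨n₁, hn₁⟩ := Pool.Agent.helper75.FP.yy_large a b ξ (by omega) hab hξ ((P : ℝ) + 2)
  refine (Set.finite_Iio (max (M + 1) n₁)).subset ?_
  intro n hn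
  rw [Set.mem_Iio]
  by_contra hle
  push Not at hle
  have h1 : M + 1 ≤ n := le_trans (le_max_left _ _) hle
  have h2 : n₁ ≤ n := le_trans (le_max_right _ _) hle
  have h3 := hn₁ n h2
  have h4 : P + 2 ≤ ⌊(k : ℝ) * Pool.Agent.helper75.FP.yy a b ξ n⌋₊ := by
    apply Nat.le_floor
    push_cast
    have : (1 : ℝ) ≤ k := by exact_mod_cast hk
    have hP0 : (0 : ℝ) ≤ P := Nat.cast_nonneg _
    nlinarith
  have hn' : ¬ (⌊(k : ℝ) * Pool.Agent.helper75.FP.yy a b ξ n⌋₊).Coprime P := hn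
  have h5 : ¬ (⌊(k : ℝ) * Pool.Agent.helper75.FP.yy a b ξ n⌋₊).Prime := by
    intro hp
    apply hn'
    rw [Nat.Prime.coprime_iff_not_dvd hp]
    intro hdvd
    have := Nat.le_of_dvd hP hdvd
    omega
  have h6 : n ∈ {n : ℕ | 1 < ⌊(k : ℝ) * (ξ * ((a : ℝ) / (b : ℝ)) ^ n)⌋₊ ∧
          ¬ (⌊(k : ℝ) * (ξ * ((a : ℝ) / (b : ℝ)) ^ n)⌋₊).Prime ∧
          ¬ (⌊(k : ℝ) * (ξ * ((a : ℝ) / (b : ℝ)) ^ n)⌋₊).Coprime P} := by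
    refine ⟨?_, h5, hn'⟩
    have h7 : 1 < ⌊(k : ℝ) * Pool.Agent.helper75.FP.yy a b ξ n⌋₊ := by omega
    exact h7
  have := hM h6
  omega

/-- All but `O(X^γ)` of the integers `k ≤ X` have infinitely many `n` for which `⌊k ξ (a/b)^n⌋` is composite
with a common factor with `P`, `γ = log (φ(P) (⌊a/P⌋ + 1)) / log a`, uniformly in `ξ > 0`; for `P = 2` the
exponent is less than one. -/
theorem result :
    (∀ a b : ℕ, 1 < b → b < a → a.Coprime b → ∀ P : ℕ, 0 < P → ∃ C : ℝ,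
      ∀ ξ : ℝ, 0 < ξ → ∀ X : ℕ, 1 ≤ X →
        (({k : ℕ | 1 ≤ k ∧ k ≤ X ∧
          {n : ℕ | 1 < ⌊(k : ℝ) * (ξ * ((a : ℝ) / (b : ℝ)) ^ n)⌋₊ ∧
            ¬ (⌊(k : ℝ) * (ξ * ((a : ℝ) / (b : ℝ)) ^ n)⌋₊).Prime ∧
            ¬ (⌊(k : ℝ) * (ξ * ((a : ℝ) / (b : ℝ)) ^ n)⌋₊).Coprime P}.Finite}.ncard : ℕ) : ℝ) ≤
          C * (X : ℝ) ^ (Real.log ((P.totient * (a / P + 1) : ℕ) : ℝ) / Real.log (a : ℝ))) ∧
    (∀ a : ℕ, 3 ≤ a →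
      Real.log (((2 : ℕ).totient * (a / 2 + 1) : ℕ) : ℝ) / Real.log (a : ℝ) < 1) := by
  classical
  refine ⟨?_, Pool.Agent.helper75.FP.exponent_two⟩
  intro a b hb hab hcop P hP
  obtain ⟨C, hC⟩ := Pool.Agent.helper75.FP.theorem2 a b hcop hb hab P hP
  refine ⟨C, fun ξ hξ X hX => ?_⟩
  refine le_trans ?_ (hC ξ hξ X hX)
  rw [← Set.ncard_coe_finset]
  have hsub : {k : ℕ | 1 ≤ k ∧ k ≤ X ∧
          {n : ℕ | 1 < ⌊(k : ℝ) * (ξ * ((a : ℝ) / (b : ℝ)) ^ n)⌋₊ ∧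
            ¬ (⌊(k : ℝ) * (ξ * ((a : ℝ) / (b : ℝ)) ^ n)⌋₊).Prime ∧
            ¬ (⌊(k : ℝ) * (ξ * ((a : ℝ) / (b : ℝ)) ^ n)⌋₊).Coprime P}.Finite} ⊆
      (((Finset.Icc 1 X).filter (fun k : ℕ =>
        {n : ℕ | ¬ (⌊(k : ℝ) * Pool.Agent.helper75.FP.yy a b ξ n⌋₊).Coprime P}.Finite) :
          Finset ℕ) : Set ℕ) := by
    rintro k ⟨h1, h2, h3⟩
    rw [Finset.mem_coe, Finset.mem_filter, Finset.mem_Icc]
    exact ⟨⟨h1, h2⟩, fin_aux a b hb hab P hP ξ hξ k h1 h3⟩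
  exact_mod_cast Set.ncard_le_ncard hsub (Finset.finite_toSet _)

end Pool.Agent.Results.MP_597c7c_nt.SparseMultipliers
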